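import Pool.Agent.K9h40.FP4.Fin

/-!
# The fourth power of a variety and the absolutely Hodge classes

Let `T` be a Hodge theory on a class of smooth projective varieties (in the intended use the
varieties are all smooth projective complex varieties, or those over an algebraically closed
subfield, and `T` is `X ↦ H(X, ℚ)`), and `D` a family of conjugate theories `T' i` with comparison
isomorphisms `a` with coefficients `L i a` (the theories `X ↦ H(X^σ, ℚ)` for the automorphisms `σ`
of `ℂ`, with the comparison isomorphisms given by de Rham cohomology and by `ℓ`-adic cohomology for
all primes `ℓ`).

Let `X` be a variety with nonzero cohomology such that the Hodge structure `H(X)` has a polarisation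
for which the centre of the algebra of its endomorphisms is nondegenerate: the only skew element `f`
of the centre for which the sum of all `(p - q) Tr(f | H^(p,q)(X))` vanishes is zero (for instance,
the centre is a product of totally real fields). Then either some Hodge class on the fourth power
`X⁴` is not absolutely Hodge, or the quotient of the number of linearly independent Hodge classes on
`X ^ n` and of the number of linearly independent absolutely Hodge classes on `X ^ n` tends to a
natural number, and not to infinity: the index of the index law (`HodgeIndex`) is finite.
-/

open CategoryTheory AlgebraicGeometry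

universe u

namespace Pool.Agent.Results.MP_4e1cf2_ag.FourthPower

open Pool.Agent.H914 Pool.Agent.Y121.AHS Pool.Agent.Y121.AHS.Full
open Pool.Agent.Y133.Half (pw)
open Pool.Agent.K9h40.FP4

variable {k : Type u} [Field k] {𝒱 : VarClass k} {ops : CycleOps 𝒱}

/-- The fourth power theorem: `pw X n` is the product of `n + 1` copies of `X`. -/
theorem result (T : HodgeTheory ops) (D : Full.Conjugates T) (X : 𝒱.Obj) [Nontrivial (T.W.H X)]
    (hX : Nondegenerate T.rat X.dim (T.pq X)) :
    ¬ AllAbsolute D (pw X 3) ∨
    ∃ N : ℕ, QuotientsTendTo (fun n => hodgeDim T (pw X n)) (fun n => Full.absDim D (pw X n)) N := by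
  by_cases h : AllAbsolute D (pw X 3)
  · exact Or.inr (fourth_power T D X hX h)
  · exact Or.inl h

end Pool.Agent.Results.MP_4e1cf2_ag.FourthPower
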