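import Pool.Agent.K9h40.OCD.Fin2

/-!
# One class decides whether the Hodge classes on the powers of a variety are absolutely Hodge

Let `T` be a Hodge theory on a class of smooth projective varieties (in the intended use the
varieties are all smooth projective complex varieties, or those over an algebraically closed
subfield, and `T` is `X ↦ H(X, ℚ)`), and `D` a family of conjugate theories `T' i` with comparison
isomorphisms (the theories `X ↦ H(X^σ, ℚ)` for the automorphisms `σ` of `ℂ`, with the comparison
isomorphisms given by de Rham cohomology and by `ℓ`-adic cohomology for all primes `ℓ`; `D` may also
consist of one automorphism and one comparison isomorphism).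

Let `X` be a variety such that the Hodge structure `H(X)` is polarised, and let `t` be the sum of
the Betti numbers of `X` minus the number of linearly independent Hodge classes on `X`. Let `N` be
the maximum of `4` and `(t dim X) ^ t`; if the centre of the algebra of the endomorphisms of the
Hodge structure `H(X)` is a product of totally real fields, `N` may also be the maximum of `4` and
`t`; and if the Hodge group of `X` is semisimple, the maximum of `4` and `t ^ 2 / 4`. Let `h` be the
number of linearly independent Hodge classes on `X ^ N`, and `M = 2 (N + h + 1)`.

There is one Hodge class `c` in the middle cohomology of the power `X ^ M` such that the following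
are equivalent for every family `D`:

* all Hodge classes on `X ^ N` are absolutely Hodge;
* the class `c` is absolutely Hodge;
* all Hodge classes on all powers of `X` are absolutely Hodge.

So the question whether the Hodge classes are absolutely Hodge is, for all powers of `X` and for
each automorphism `σ`, the question about the one class `c`, which does not depend on `σ`.
-/

universe u

namespace Pool.Agent.Results.MP_4e1cf2_ag.OneClassDecides

open Pool.Agent.H914 Pool.Agent.Y121.AHS Pool.Agent.K9h40.OCD
open Pool.Agent.Y133.Half (pw)

variable {k : Type u} [Field k] {𝒱 : VarClass k} {ops : CycleOps 𝒱}

/-- One class decides: `pw X n` is the product of `n + 1` copies of `X`; the dimension of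
`pw X (2 * (N + h) + 1)` is `2 * ((N + h + 1) * X.dim)`. -/
theorem result (T : HodgeTheory ops) (X : 𝒱.Obj) (N h : ℕ)
    (hN : Admissible T.rat X.dim (T.pq X) (transNum T X) N)
    (hh : h = hodgeNum T (pw X (N - 1))) :
    ∃ c, IsHodge T (pw X (2 * (N + h) + 1)) ((N + h + 1) * X.dim) c ∧
      ∀ D : Full.Conjugates T, [AllAbsolute D (pw X (N - 1)),
        Full.IsAbsHodge D _ ((N + h + 1) * X.dim) c, ∀ n, AllAbsolute D (pw X n)].TFAE :=
  one_tfae T X N h hN hh

end Pool.Agent.Results.MP_4e1cf2_ag.OneClassDecides
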