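import Pool.Agent.K9h28.SfB

/-!
# Principle B at a singular fibre

Let `π : V → B` be a surjective morphism of smooth projective complex varieties (or let `B` be any
projective variety), `X` a smooth fibre of `π` over the open set `U` where `π` is smooth, and `f` the
inclusion of `X`. By the theorem of the fixed part of Deligne the classes on `X` which are invariant
under the monodromy group `π₁(U)` are the inverse images of the classes on `V`.

The principle B of Deligne says that such a class is absolutely Hodge if it is absolutely Hodge on
ONE OTHER SMOOTH fibre. This is the main tool for proofs that Hodge classes are absolutely Hodge.
We prove that it holds also for the SINGULAR fibres: let `F` be any fibre of `π`, and let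
`g s : Y s → V` be resolutions of singularities of the irreducible components of `F`. Then the
following are equivalent for an invariant class `a` on `X`:

* `a` is absolutely Hodge;
* `a` is the inverse image of an absolutely Hodge class on `V`;
* `a` is the inverse image of a class on `V` whose inverse images on all the `Y s` are absolutely
  Hodge.

Moreover, if all Hodge classes of degree `2 j` on the varieties `Y s` are absolutely Hodge, then all
invariant Hodge classes of degree `2 j` on `X` are absolutely Hodge. So one Hodge class on one smooth
fibre which is invariant and not absolutely Hodge would give a Hodge class which is not absolutely
Hodge on some component of EVERY fibre of the family. For example, if the components of one fibre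
are dominated by abelian varieties (Deligne), or if their cohomology is spanned by classes of algebraic
cycles (toric varieties, for instance), then all invariant Hodge classes on the smooth fibres are
absolutely Hodge; for a very general fibre all Hodge classes are invariant, after a finite cover of
the base.

The two hypotheses are known theorems of Deligne.
* `VanishesWith`: if a class `x` of degree `i` on `V` is zero on all the `Y s`, then its restriction
  to `F` is in the part of weight `< i` of the cohomology of `F`; it is the image of a class of a pure
  Hodge structure, hence it is zero. So `x` is zero on a neighbourhood of `F`, which contains smooth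
  fibres, and therefore on `X`.
* `NoIsotropic`: the representations of `π₁(U)` on the cohomology of `X` are semisimple, hence the
  cup product is nondegenerate on the invariant classes.

The proof: the first condition says that the inverse image of a class on `X` is a linear function
of the inverse images on the `Y s`, and this is inherited by the conjugate theories. If the images of
`x` on the `Y s` are the rational Hodge classes `c s` in a conjugate theory, then a system of linear
equations with rational coefficients has a solution with coefficients in `ℂ` or `ℚ_ℓ`, namely the
conjugate of `x`, and hence a rational solution `y`; the image of `y` on `X` does not depend on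
choices, is the conjugate of `a` for all comparison isomorphisms, and it is a Hodge class, since
the operators `z ^ (p - q)` on `H^(p,q)` fix the `c s`. The other implications use the nondegeneracy of the
intersection form on the absolutely Hodge classes of `V`.
-/

set_option autoImplicit false

open CategoryTheory AlgebraicGeometry

universe u

namespace Pool.Agent.Results.MP_4e1cf2_ag.SingularFibre

open Pool.Agent.H914 Pool.Agent.Y121.AHS Pool.Agent.Y121.AHS.Full Pool.Agent.K9h28.Sf

variable {k : Type u} [Field k] {𝒱 : VarClass k} {ops : CycleOps 𝒱}

/-- **Principle B at a singular fibre.** Let `f : X → V` and `g s : Y s → V` be morphisms of smooth
projective varieties, such that the classes of degree `2 j` on `V` which are zero on all the `Y s` are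
zero on `X`, and the cup product is nondegenerate on the restrictions to `X` of the classes of
degree `2 j` and `2 (dim X - j)` on `V`. (For example `X` is a smooth fibre of a family, and the `Y s`
are resolutions of the components of any fibre.) Let `a` be the inverse image on `X` of a class of
degree `2 j` on `V`. The following are equivalent: `a` is absolutely Hodge; `a` is the inverse image of an
absolutely Hodge class on `V`; `a` is the inverse image of a class on `V` whose inverse images on all
`Y s` are absolutely Hodge. If all Hodge classes of degree `2 j` on the `Y s` are absolutely Hodge and
`a` is Hodge, then `a` is absolutely Hodge. -/
theorem result (T : HodgeTheory ops) (D : Full.Conjugates T) {V X : 𝒱.Obj} {S : Type} [Fintype S]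
    {Y : S → 𝒱.Obj} (f : X ⟶ V) (g : ∀ s, Y s ⟶ V) (j : ℕ) (hK : VanishesWith T.W f g (2 * j))
    (hS : ∀ l, l = j ∨ l + j = X.dim → NoIsotropic T.W f (2 * l)) (a : T.W.H X)
    (ha : IsRestriction T.W f (2 * j) a) :
    List.TFAE [
      Full.IsAbsHodge D X j a,
      ∃ x, Full.IsAbsHodge D V j x ∧ pb T.W f x = a,
      ∃ x, OfDegree T.W (2 * j) x ∧ pb T.W f x = a ∧
        ∀ s, Full.IsAbsHodge D (Y s) j (pb T.W (g s) x)] ∧
    ((∀ s c, IsHodge T (Y s) j c → Full.IsAbsHodge D (Y s) j c) → IsHodge T X j a →
      Full.IsAbsHodge D X j a) :=
  ⟨tfae T D f g j hK hS a ha, fun h hH => all_abs T D f g j hK hS h a ha hH⟩

end Pool.Agent.Results.MP_4e1cf2_ag.SingularFibre
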